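import Pool.Agent.H115G.MkPD
import Pool.Agent.H115R4.MkHyp

set_option autoImplicit false

/-!
Task B of "graceful brooms" (helper218): number of residues coprime to `G` which are not units.
-/

namespace H115G

open Finset

namespace TB

theorem card_range_coprime (G k : ℕ) :
    ((range (G * k)).filter (fun x => G.Coprime x)).card = G.totient * k := by
  induction k with
  | zero => simp
  | succ k ih =>
    have h1 : range (G * (k + 1)) = range (G * k) ∪ Ico (G * k) (G * k + G) := by
      ext x
      simp only [mem_range, mem_union, mem_Ico]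
      rw [Nat.mul_succ]
      omega
    have h2 : Disjoint ((range (G * k)).filter (fun x => G.Coprime x))
        ((Ico (G * k) (G * k + G)).filter (fun x => G.Coprime x)) := by
      rw [disjoint_left]
      intro x hx hy
      rw [mem_filter, mem_range] at hx
      rw [mem_filter, mem_Ico] at hy
      omega
    rw [h1, filter_union, card_union_of_disjoint h2, ih, Nat.filter_coprime_Ico_eq_totient,
      Nat.mul_succ]

theorem card_zmod (G Q : ℕ) [NeZero Q] :
    ((univ : Finset (ZMod Q)).filter (fun a => Nat.Coprime a.val G)).card =
      ((range Q).filter (fun x => G.Coprime x)).card := by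
  refine card_bij (fun a _ => a.val) ?_ ?_ ?_
  · intro a ha
    rw [mem_filter] at ha
    rw [mem_filter, mem_range]
    exact ⟨ZMod.val_lt a, ha.2.symm⟩
  · intro a _ b _ hab
    exact ZMod.val_injective Q hab
  · intro x hx
    rw [mem_filter, mem_range] at hx
    refine ⟨(x : ZMod Q), ?_, ZMod.val_natCast_of_lt hx.1⟩
    rw [mem_filter, ZMod.val_natCast_of_lt hx.1]
    exact ⟨mem_univ _, hx.2.symm⟩

end TB

theorem card_Bset2_proof : card_Bset2 := by
  classical
  intro G Q' _ hG hGQ
  have hQ' : 0 < Q' := by
    rcases Nat.eq_zero_or_pos Q' with h | h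
    · exfalso
      exact NeZero.ne (G * Q') (by rw [h, Nat.mul_zero])
    · exact h
  have hunit : ∀ a : ZMod (G * Q'), IsUnit a ↔ Nat.Coprime a.val (G * Q') := by
    intro a
    conv_lhs => rw [← ZMod.natCast_zmod_val a]
    exact ZMod.isUnit_iff_coprime _ _
  have h2 : (univ : Finset (ZMod (G * Q'))).filter (fun a => Nat.Coprime a.val G) =
      Bset G (G * Q') ∪ H115R4.Uset (G * Q') := by
    ext a
    simp only [Bset, H115R4.Uset, mem_union, mem_filter, mem_univ, true_and]
    constructor
    · intro h
      by_cases hu : IsUnit a
      · exact Or.inr hu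
      · refine Or.inl ⟨hu, ?_, h⟩
        rintro rfl
        rw [ZMod.val_zero, Nat.coprime_zero_left] at h
        omega
    · rintro (h | h)
      · exact h.2.2
      · exact Nat.Coprime.coprime_mul_right_right ((hunit a).mp h)
  have h3 : Disjoint (Bset G (G * Q')) (H115R4.Uset (G * Q')) := by
    rw [disjoint_left]
    intro x hx hy
    simp only [Bset, H115R4.Uset, mem_filter, mem_univ, true_and] at hx hy
    exact hx.1 hy
  have h4 : (Bset G (G * Q')).card + (G * Q').totient = G.totient * Q' := by
    rw [← H115R4.card_Uset, ← card_union_of_disjoint h3, ← h2, TB.card_zmod,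
      TB.card_range_coprime]
  refine ⟨h4, fun h1 => ?_⟩
  rw [← card_pos]
  have h5 : (G * Q').totient = G.totient * Q'.totient := Nat.totient_mul hGQ
  have h6 : Q'.totient < Q' := Nat.totient_lt Q' h1
  have h7 : 0 < G.totient := Nat.totient_pos.mpr (by omega)
  have h8 : G.totient * Q'.totient < G.totient * Q' := Nat.mul_lt_mul_of_pos_left h6 h7
  omega

end H115G
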