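import Pool.Agent.H115G.MkPD
import Pool.Agent.H221R.AG.TH

set_option autoImplicit false

/-!
Task H of "graceful brooms" (helper218): the greedy finish with more output
(adaptation of the proof of `finish_of`, helper221).
-/

namespace H115G

open Finset
open H115R4 (Dec ch dep headf InE df ed PLab nb U0)
open H115R4.TH

theorem finish2_of (hst : H115R4.stage) : finish2 := by
  intro n par hpar a b m D K Q W hK hQ T f hfE hfP hfS hPL hdf u x y hx hy hu c1 c2 c3
  have hsub : D.E ⊆ range n ∧ D.L1 ⊆ range n ∧ D.L2 ⊆ range n ∧ D.P ⊆ range n := by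
    rw [← D.hun]
    refine ⟨?_, ?_, ?_, ?_⟩ <;> intro v hv <;> simp only [mem_union] <;> tauto
  obtain ⟨sE, s1, s2, sP⟩ := hsub
  have nE1 : ∀ v ∈ D.E, v ∉ D.L1 := fun v h1 h2 => (disjoint_left.mp D.dE1) h1 h2
  have nE2 : ∀ v ∈ D.E, v ∉ D.L2 := fun v h1 h2 => (disjoint_left.mp D.dE2) h1 h2
  have n12 : ∀ v ∈ D.L1, v ∉ D.L2 := fun v h1 h2 => (disjoint_left.mp D.d12) h1 h2
  have nEP : ∀ v ∈ D.E, v ∉ D.P := fun v h1 h2 => (disjoint_left.mp D.dEP) h1 h2
  have n1P : ∀ v ∈ D.L1, v ∉ D.P := fun v h1 h2 => (disjoint_left.mp D.d1P) h1 h2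
  have n2P : ∀ v ∈ D.L2, v ∉ D.P := fun v h1 h2 => (disjoint_left.mp D.d2P) h1 h2
  have hlt : ∀ c, c ∈ range n → 0 < c → par c < c := fun c hc h0 => hpar c h0 (mem_range.mp hc)
  set D0 := D.E ∪ D.P.filter (fun v => D.head v ∈ T) with hD0
  set XA := D.P.filter (fun v => D.head v ∉ T) with hXA
  have sD0 : D0 ⊆ range n := union_subset sE ((filter_subset _ _).trans sP)
  have sXA : XA ⊆ range n := (filter_subset _ _).trans sP
  have hW : 0 < Q * W := Nat.mul_pos hQ (by omega)
  have mD0 : ∀ v, v ∈ D0 ↔ v ∈ D.E ∨ (v ∈ D.P ∧ D.head v ∈ T) := by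
    intro v; rw [hD0, mem_union, mem_filter]
  have mXA : ∀ v, v ∈ XA ↔ v ∈ D.P ∧ D.head v ∉ T := by
    intro v; rw [hXA, mem_filter]
  have hDX : Disjoint D0 XA := by
    rw [disjoint_left]
    intro v h1 h2
    rw [mD0] at h1
    rw [mXA] at h2
    rcases h1 with h1 | h1
    · exact nEP v h1 h2.1
    · exact h2.2 h1.2
  -- STAGE A
  have nbA : ∀ v ∈ XA, ∀ c ∈ nb par (D0 ∪ XA.filter (fun i => i < v)) v, c = par v ∧ 0 < v := by
    intro v hv c hc
    unfold nb at hc
    rw [mem_filter, mem_union, mem_filter] at hc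
    rw [mXA] at hv
    obtain ⟨hc1, hc2⟩ := hc
    rcases hc2 with ⟨h0, hcv⟩ | ⟨h0, hcv⟩
    · exfalso
      rcases hc1 with h1 | ⟨h1, h2⟩
      · rw [mD0] at h1
        rcases h1 with h1 | h1
        · rcases D.E_par c h1 h0 with h3 | h3
          · rw [hcv] at h3; exact nEP v h3 hv.1
          · rw [hcv] at h3; exact n1P v h3 hv.1
        · by_cases hh : D.head c = c
          · exact D.head_h c h1.1 hh h0 (by rw [hcv]; exact hv.1)
          · have := (D.head_nh c h1.1 hh).2.2
            rw [hcv] at this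
            rw [← this] at h1
            exact hv.2 h1.2
      · have := hlt c (sXA h1) h0
        omega
    · exact ⟨hcv.symm, h0⟩
  have sub0 : ∀ v, nb par D0 v ⊆ nb par (D0 ∪ XA.filter (fun i => i < v)) v :=
    fun v => nb_mono subset_union_left v
  have subX : ∀ v, nb par (XA.filter (fun i => i < v)) v ⊆
      nb par (D0 ∪ XA.filter (fun i => i < v)) v := fun v => nb_mono subset_union_right v
  have hedP : ∀ i ∈ ed par D0, i ∉ D.E → (Q ∣ df par f i → i ∈ D.S) := by
    intro i hi hiE hQi
    unfold ed at hi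
    rw [mem_filter] at hi
    obtain ⟨hi1, hi0, hi2⟩ := hi
    rw [mD0] at hi1 hi2
    rcases hi1 with hi1 | hi1
    · exact absurd hi1 hiE
    · refine (hdf i hi1.1 hi1.2 hi0 ?_).1 hQi
      rcases hi2 with hi2 | hi2
      · exact Or.inl hi2
      · refine Or.inr ⟨hi2.1, fun hh => D.head_h i hi1.1 hh hi0 hi2.1⟩
  have hU0a : (U0 par D0 f Q 0).card ≤ D.E.card + u := by
    unfold U0
    refine card_image_le.trans ?_
    refine (card_le_card (t := D.E ∪ D.S) ?_).trans ((card_union_le _ _).trans (by omega))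
    intro i hi
    rw [mem_filter] at hi
    rw [mem_union]
    by_cases hiE : i ∈ D.E
    · exact Or.inl hiE
    · exact Or.inr (hedP i hi.1 hiE hi.2.1)
  have hU0b : (U0 par D0 f Q (Q * W)).card ≤ u := by
    unfold U0
    refine card_image_le.trans ?_
    refine (card_le_card (t := D.S) ?_).trans hu
    intro i hi
    rw [mem_filter] at hi
    by_cases hiE : i ∈ D.E
    · exfalso
      obtain ⟨hi1, hi2, hi3⟩ := hi
      unfold ed at hi1
      rw [mem_filter] at hi1
      obtain ⟨-, hi0, hi4⟩ := hi1
      have hpE : par i ∈ D.E := by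
        rcases D.E_par i hiE hi0 with h | h
        · exact h
        · rw [mD0] at hi4
          rcases hi4 with h' | h'
          · exact h'
          · exact absurd h'.1 (n1P _ h)
      have e1 := (hfE i hiE).2
      have e2 := (hfE (par i) hpE).2
      unfold df at hi3
      omega
    · exact hedP i hi.1 hiE hi.2.1
  obtain ⟨gA, gA1, gA2, gA3, gA4, gA5⟩ := hst n par hpar D0 XA f Q (Q * W) (cd 3 Q W)
    (fun _ => 1) (fun v => {par v}) 1 (D.E.card + u) u sD0 sXA hDX hPL
    (fun x hx => cd_dvd hx)
    (by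
      intro i hi hic
      have l1 := cd_lower hic
      have l2 := cd_upper hQ hic
      rw [mD0] at hi
      rcases hi with hi | hi
      · have := (hfE i hi).2
        omega
      · have := (hfP i hi.1 hi.2).1
        omega)
    (by
      intro v hv
      refine (card_le_card (t := {par v}) ?_).trans (by simp)
      intro c hc
      rw [mem_singleton]
      exact (nbA v hv c hc).1)
    (by
      intro v hv c hc
      have h1 := nbA v hv c (sub0 v hc)
      have hcD : c ∈ D0 := by
        unfold nb at hc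
        exact (mem_filter.mp hc).1
      rw [mD0] at hcD
      rw [mXA] at hv
      rcases hcD with h2 | h2
      · exact (hfE c h2).1
      · exfalso
        rw [h1.1] at h2
        by_cases hh : D.head v = v
        · exact D.head_h v hv.1 hh h1.2 h2.1
        · have := (D.head_nh v hv.1 hh).2.2
          rw [this] at h2
          exact hv.2 h2.2)
    (by intro v _; simp)
    (by
      intro v hv c hc
      rw [mem_singleton]
      exact (nbA v hv c (subX v hc)).1)
    (by
      intro v hv c hc hcn
      exfalso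
      apply hcn
      rw [mem_singleton]
      exact (nbA v hv c (sub0 v hc)).1)
    hU0a hU0b
    (by
      intro v _
      rw [cd_card hQ]
      simp only [sum_const, smul_eq_mul, mul_one]
      omega)
  simp only [sum_const, smul_eq_mul, mul_one] at gA4 gA5
  -- the union
  set D1 := D.E ∪ D.P with hD1
  have hD01 : D0 ∪ XA = D1 := by
    ext v
    rw [mem_union, mD0, mXA, hD1, mem_union]
    tauto
  rw [hD01] at gA3 gA4 gA5
  have mD1 : ∀ v, v ∈ D1 ↔ v ∈ D.E ∨ v ∈ D.P := by
    intro v; rw [hD1, mem_union]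
  -- values of gA
  have vE : ∀ v ∈ D.E, Q ∣ gA v ∧ gA v < Q * W := by
    intro v hv
    rw [gA1 v ((mD0 v).mpr (Or.inl hv))]
    exact hfE v hv
  have vP : ∀ v ∈ D.P, 3 * (Q * W) ≤ gA v ∧ gA v < 2 * K * (Q * W) := by
    intro v hv
    by_cases hT : D.head v ∈ T
    · rw [gA1 v ((mD0 v).mpr (Or.inr ⟨hv, hT⟩))]
      have := hfP v hv hT
      omega
    · have h1 := gA2 v ((mXA v).mpr ⟨hv, hT⟩)
      refine ⟨cd_lower h1, (cd_upper hQ h1).trans_le ?_⟩
      exact Nat.mul_le_mul_right _ (by omega)
  have vS : ∀ v ∈ D.P, v ∈ D.S → Q ∣ gA v := by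
    intro v hv hS
    by_cases hT : D.head v ∈ T
    · rw [gA1 v ((mD0 v).mpr (Or.inr ⟨hv, hT⟩))]
      exact hfS v hv hT hS
    · exact cd_dvd (gA2 v ((mXA v).mpr ⟨hv, hT⟩))
  -- sums
  have hysum : ∑ v ∈ D.L1, (ch n par v + 1) + ∑ v ∈ D.L2, (ch n par v + 1) ≤ y := by
    rw [← sum_union D.d12]
    exact hy
  set y1 := ∑ v ∈ D.L1, (ch n par v + 1) with hy1
  set y2 := ∑ v ∈ D.L2, (ch n par v + 1) with hy2
  have hL1c : D.L1.card ≤ y1 := by
    rw [hy1, card_eq_sum_ones]
    exact sum_le_sum (fun _ _ => Nat.le_add_left _ _)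
  have hL2c : D.L2.card ≤ y2 := by
    rw [hy2, card_eq_sum_ones]
    exact sum_le_sum (fun _ _ => Nat.le_add_left _ _)
  have hQnb : ∀ v, (v ∈ D.L1 ∨ v ∈ D.L2) → ∀ c ∈ nb par D1 v, Q ∣ gA c := by
    intro v hv c hc
    unfold nb at hc
    rw [mem_filter, mD1] at hc
    obtain ⟨hc1, hc2⟩ := hc
    have hvP : v ∉ D.P := by
      rcases hv with hv | hv
      · exact n1P v hv
      · exact n2P v hv
    rcases hc1 with hc1 | hc1
    · exact (vE c hc1).1
    · rcases hc2 with ⟨h0, hcv⟩ | ⟨h0, hcv⟩
      · apply vS c hc1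
        apply D.S_top c hc1
        · by_contra hh
          have := (D.head_nh c hc1 hh).2.1
          rw [hcv] at this
          exact hvP this
        · right
          rw [hcv]
          exact hv
      · apply vS c hc1
        rw [← hcv]
        rw [← hcv] at hc1
        exact D.S_par v hv h0 hc1
  -- STAGE B
  have sD1 : D1 ⊆ range n := union_subset sE sP
  obtain ⟨gB, gB1, gB2, gB3, gB4, gB5⟩ := hst n par hpar D1 D.L2 gA Q (Q * W) (cd 1 Q W)
    (fun v => ch n par v + 1) (fun v => {par v}) 1 (D.E.card + u + XA.card) (u + XA.card)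
    sD1 s2
    (by
      rw [disjoint_left]
      intro v h1 h2
      rw [mD1] at h1
      rcases h1 with h1 | h1
      · exact nE2 v h1 h2
      · exact n2P v h2 h1)
    gA3 (fun x hx => cd_dvd hx)
    (by
      intro i hi hic
      have l1 := cd_lower hic
      have l2 := cd_upper hQ hic
      rw [mD1] at hi
      rcases hi with hi | hi
      · have := (vE i hi).2
        omega
      · have := (vP i hi).1
        omega)
    (by
      intro v _
      exact nb_card_le (union_subset sD1 ((filter_subset _ _).trans s2)) v)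
    (fun v hv c hc => hQnb v (Or.inr hv) c hc)
    (by intro v _; simp)
    (by
      intro v _ c hc
      unfold nb at hc
      rw [mem_filter, mem_filter] at hc
      rw [mem_singleton]
      obtain ⟨⟨hc1, hc2⟩, hc3⟩ := hc
      rcases hc3 with ⟨h0, hcv⟩ | ⟨h0, hcv⟩
      · have := hlt c (s2 hc1) h0
        omega
      · exact hcv.symm)
    (by
      intro v hv c hc hcn z hz
      have l1 := cd_lower hz
      have l2 := cd_upper hQ hz
      unfold nb at hc
      rw [mem_filter, mD1] at hc
      rw [mem_singleton] at hcn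
      obtain ⟨hc1, hc2⟩ := hc
      rcases hc2 with ⟨h0, hcv⟩ | ⟨h0, hcv⟩
      · rcases hc1 with hc1 | hc1
        · exfalso
          rcases D.E_par c hc1 h0 with h3 | h3
          · rw [hcv] at h3; exact nE2 v h3 hv
          · rw [hcv] at h3; exact n12 v h3 hv
        · have := (vP c hc1).1
          omega
      · exact absurd hcv.symm hcn)
    gA4 gA5
    (by
      intro v hv
      rw [cd_card hQ]
      have hb := D.L2_ch v hv
      rw [← hy2]
      have e1 : 2 * (ch n par v + 1) * (u + XA.card + y2) ≤ 2 * (b + 1) * (u + x + y) :=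
        Nat.mul_le_mul (by omega) (by omega)
      have e2 : (ch n par v + 1) ^ 2 ≤ (b + 1) ^ 2 := Nat.pow_le_pow_left (by omega) 2
      nlinarith)
  rw [← hy2] at gB4 gB5
  -- STAGE C
  set D2 := D1 ∪ D.L2 with hD2
  have sD2 : D2 ⊆ range n := union_subset sD1 s2
  have mD2 : ∀ v, v ∈ D2 ↔ (v ∈ D.E ∨ v ∈ D.P) ∨ v ∈ D.L2 := by
    intro v; rw [hD2, mem_union, mD1]
  obtain ⟨gC, gC1, gC2, gC3, -, -⟩ := hst n par hpar D2 D.L1 gB Q (Q * W)
    (cd 1 Q W \ D.L2.image gB)
    (fun v => ch n par v + 1) (fun v => nb par (range n) v) (a + 1)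
    (D.E.card + u + XA.card + y2) (u + XA.card + y2)
    sD2 s1
    (by
      rw [disjoint_left]
      intro v h1 h2
      rw [mD2] at h1
      rcases h1 with (h1 | h1) | h1
      · exact nE1 v h1 h2
      · exact n1P v h2 h1
      · exact n12 v h2 h1)
    gB3 (fun x hx => cd_dvd (mem_sdiff.mp hx).1)
    (by
      intro i hi hic
      rw [mem_sdiff] at hic
      obtain ⟨hic, hin⟩ := hic
      have l1 := cd_lower hic
      have l2 := cd_upper hQ hic
      rw [mD2] at hi
      rcases hi with (hi | hi) | hi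
      · rw [gB1 i ((mD1 i).mpr (Or.inl hi))] at l1
        have := (vE i hi).2
        omega
      · rw [gB1 i ((mD1 i).mpr (Or.inr hi))] at l2
        have := (vP i hi).1
        omega
      · exact hin (mem_image_of_mem _ hi))
    (by
      intro v _
      exact nb_card_le (union_subset sD2 ((filter_subset _ _).trans s1)) v)
    (by
      intro v hv c hc
      have hc0 : c ∈ D2 := by
        unfold nb at hc
        exact (mem_filter.mp hc).1
      by_cases hc2 : c ∈ D.L2
      · exact cd_dvd (gB2 c hc2)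
      · have hc1 : c ∈ D1 := by
          rw [mD2] at hc0
          rw [mD1]
          tauto
        rw [gB1 c hc1]
        apply hQnb v (Or.inl hv) c
        unfold nb at hc ⊢
        rw [mem_filter] at hc ⊢
        exact ⟨hc1, hc.2⟩)
    (by
      intro v hv
      have h1 := nb_card_le (par := par) (Finset.Subset.refl (range n)) v
      have h2 := D.L1_ch v hv
      omega)
    (by
      intro v _
      exact nb_mono ((filter_subset _ _).trans s1) v)
    (by
      intro v _ c hc hcn
      exact absurd (nb_mono sD2 v hc) hcn)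
    gB4 gB5
    (by
      intro v hv
      have ha := D.L1_ch v hv
      have hcard : W ≤ (cd 1 Q W \ D.L2.image gB).card + D.L2.card := by
        have h1 : (cd 1 Q W).card ≤ (cd 1 Q W \ D.L2.image gB).card +
            (D.L2.image gB).card := by
          have := le_card_sdiff (D.L2.image gB) (cd 1 Q W)
          omega
        rw [cd_card hQ] at h1
        have h2 : (D.L2.image gB).card ≤ D.L2.card := card_image_le
        omega
      rw [← hy1]
      have e1 : 2 * (ch n par v + 1) * (u + XA.card + y2 + y1) ≤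
          2 * (a + 1) * (u + x + y) :=
        Nat.mul_le_mul (by omega) (by omega)
      have e2 : (ch n par v + 1) ^ 2 ≤ (a + 1) ^ 2 := Nat.pow_le_pow_left (by omega) 2
      have e3 : 2 * (a + 1) * (D.E.card + u + XA.card + y2 + y1) ≤
          2 * (a + 1) * (D.E.card + u + x + y) := Nat.mul_le_mul_left _ (by omega)
      nlinarith)
  have hall : D2 ∪ D.L1 = range n := by
    rw [← D.hun]
    ext v
    rw [mem_union, mD2]
    simp only [mem_union]
    tauto
  rw [hall] at gC3
  have vD2 : ∀ i, (i ∈ D.E ∨ i ∈ D.P) → gC i = gA i := by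
    intro i hi
    rw [gC1 i ((mD2 i).mpr (Or.inl hi)), gB1 i ((mD1 i).mpr hi)]
  have qE : ∀ i ∈ D.E, Q ∣ gC i := by
    intro i hi
    rw [vD2 i (Or.inl hi)]
    exact (vE i hi).1
  have qS : ∀ i ∈ D.P, i ∈ D.S → Q ∣ gC i := by
    intro i hi hS
    rw [vD2 i (Or.inr hi)]
    exact vS i hi hS
  have qX : ∀ i ∈ D.P, D.head i ∉ T → Q ∣ gC i := by
    intro i hi hT
    rw [vD2 i (Or.inr hi)]
    exact cd_dvd (gA2 i ((mXA i).mpr ⟨hi, hT⟩))
  have qL2 : ∀ i ∈ D.L2, Q ∣ gC i := by
    intro i hi
    rw [gC1 i ((mD2 i).mpr (Or.inr hi))]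
    exact cd_dvd (gB2 i hi)
  have qL1 : ∀ i ∈ D.L1, Q ∣ gC i := fun i hi => cd_dvd (mem_sdiff.mp (gC2 i hi)).1
  have qL : ∀ i, (i ∈ D.L1 ∨ i ∈ D.L2) → Q ∣ gC i := by
    intro i hi
    rcases hi with hi | hi
    · exact qL1 i hi
    · exact qL2 i hi
  have hcls : ∀ i < n, i ∈ D.E ∨ (i ∈ D.L1 ∨ i ∈ D.L2) ∨ i ∈ D.P := by
    intro i hi
    have : i ∈ D.E ∪ D.L1 ∪ D.L2 ∪ D.P := by rw [D.hun]; exact mem_range.mpr hi
    simp only [mem_union] at this
    tauto
  refine ⟨gC, ?_, gC3, ?_, ?_, ?_⟩
  rotate_left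
  · intro i hi
    have h1 : i ∈ D.E ∨ i ∈ D.P := by
      rcases (mD0 i).mp hi with h | h
      · exact Or.inl h
      · exact Or.inr h.1
    rw [vD2 i h1]
    exact gA1 i hi
  · intro i hi hn
    rw [mD0] at hn
    rcases hcls i hi with h | h | h
    · exact absurd (Or.inl h) hn
    · exact qL i h
    · exact qX i h (fun hT => hn (Or.inr ⟨h, hT⟩))
  · intro i h0 hi hn
    have hj : par i < n := (hpar i h0 hi).trans hi
    have key : Q ∣ gC i ∧ Q ∣ gC (par i) := by
      rcases hcls i hi with h | h | h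
      · refine ⟨qE i h, ?_⟩
        rcases D.E_par i h h0 with h' | h'
        · exact qE _ h'
        · exact qL1 _ h'
      · refine ⟨qL i h, ?_⟩
        rcases hcls (par i) hj with h' | h' | h'
        · exact qE _ h'
        · exact qL _ h'
        · exact qS _ h' (D.S_par i h h0 h')
      · by_cases hT : D.head i ∈ T
        · have hj0 : par i ∉ D0 := fun hh => hn ⟨(mD0 i).mpr (Or.inr ⟨h, hT⟩), hh⟩
          rw [mD0] at hj0
          have hh : D.head i = i := by
            by_contra hh
            have h2 := D.head_nh i h hh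
            exact hj0 (Or.inr ⟨h2.2.1, by rw [h2.2.2]; exact hT⟩)
          have hjP := D.head_h i h hh h0
          have hjL : par i ∈ D.L1 ∨ par i ∈ D.L2 := by
            rcases hcls (par i) hj with h' | h' | h'
            · exact absurd (Or.inl h') hj0
            · exact h'
            · exact absurd h' hjP
          exact ⟨qS i h (D.S_top i h hh (Or.inr hjL)), qL _ hjL⟩
        · refine ⟨qX i h hT, ?_⟩
          by_cases hh : D.head i = i
          · have hjP := D.head_h i h hh h0
            rcases hcls (par i) hj with h' | h' | h'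
            · exact qE _ h'
            · exact qL _ h'
            · exact absurd h' hjP
          · have h2 := D.head_nh i h hh
            exact qX _ h2.2.1 (by rw [h2.2.2]; exact hT)
    unfold df
    rw [← Int.natCast_dvd]
    exact dvd_sub (Int.natCast_dvd_natCast.mpr key.1) (Int.natCast_dvd_natCast.mpr key.2)
  · intro i hi
    have hi' : i ∈ D2 ∪ D.L1 := by
      rw [hall]
      exact mem_range.mpr hi
    have hKQ : 2 * (Q * W) ≤ 2 * K * (Q * W) := Nat.mul_le_mul_right _ (by omega)
    rw [mem_union] at hi'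
    rcases hi' with h | h
    · rw [gC1 i h]
      rw [mD2] at h
      rcases h with (h | h) | h
      · rw [gB1 i ((mD1 i).mpr (Or.inl h))]
        have := (vE i h).2
        omega
      · rw [gB1 i ((mD1 i).mpr (Or.inr h))]
        exact (vP i h).2
      · have := cd_upper hQ (gB2 i h)
        omega
    · have := cd_upper hQ (mem_sdiff.mp (gC2 i h)).1
      omega
end H115G
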